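import Pool.Agent.Q51.ZC.Stm2

/-! # Project ZC of helper51: the values at the closed points over the completions, common part of L0 and L1 -/

set_option autoImplicit false

namespace Pool.Agent.Q241.ZC

open Polynomial Finset
open Pool.Agent.Q51.ZC
open Pool.Agent.Q51.SE (Alg cl Point IsValue IsUnitAt)

variable {l : ℕ} [Fact l.Prime] {K : Type} [Field K] [Algebra ℚ_[l] K] [FiniteDimensional ℚ_[l] K]

/-- composition with an automorphism -/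
noncomputable def cmp (g : Om l ≃ₐ[ℚ_[l]] Om l) (τ : K →ₐ[ℚ_[l]] Om l) : K →ₐ[ℚ_[l]] Om l :=
  (g : Om l →ₐ[ℚ_[l]] Om l).comp τ

lemma cmp_apply (g : Om l ≃ₐ[ℚ_[l]] Om l) (τ : K →ₐ[ℚ_[l]] Om l) (x : K) : cmp g τ x = g (τ x) := rfl

/-- composition with an automorphism, a bijection -/
noncomputable def cmpE (g : Om l ≃ₐ[ℚ_[l]] Om l) : (K →ₐ[ℚ_[l]] Om l) ≃ (K →ₐ[ℚ_[l]] Om l) where
  toFun := cmp g
  invFun := cmp g.symm
  left_inv τ := by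
    ext x
    simp [cmp_apply]
  right_inv τ := by
    ext x
    simp [cmp_apply]

lemma cmpE_apply (g : Om l ≃ₐ[ℚ_[l]] Om l) (τ : K →ₐ[ℚ_[l]] Om l) : cmpE g τ = cmp g τ := rfl

lemma norm_natCast_int (D : ℤ) : ‖(D : Om l)‖ = ‖(D : ℚ_[l])‖ := by
  have h : (D : Om l) = algebraMap ℚ_[l] (Om l) (D : ℚ_[l]) := by simp
  rw [h, norm_ext]

lemma norm_one_of_not_dvd {D : ℤ} (h : ¬ (l : ℤ) ∣ D) : ‖(D : Om l)‖ = 1 := by
  rw [norm_natCast_int]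
  refine le_antisymm (Padic.norm_int_le_one D) ?_
  by_contra h1
  have h2 : ‖((D : ℤ_[l]) : ℚ_[l])‖ < 1 := by
    rw [PadicInt.coe_intCast]
    exact not_le.mp h1
  exact h ((PadicInt.norm_int_lt_one_iff_dvd D).mp h2)

lemma norm_of_exact {D : ℤ} (h : (l : ℤ) ∣ D) (h' : ¬ (l : ℤ) ^ 2 ∣ D) : ‖(D : Om l)‖ = (l : ℝ) ^ (-1 : ℤ) := by
  obtain ⟨D', rfl⟩ := h
  have h1 : ¬ (l : ℤ) ∣ D' := by
    intro h2
    exact h' (by rw [pow_two]; exact mul_dvd_mul_left _ h2)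
  have h3 : ‖((l : ℤ) : Om l)‖ = (l : ℝ)⁻¹ := by
    rw [norm_natCast_int]
    simp
  rw [Int.cast_mul, norm_mul, norm_one_of_not_dvd h1, mul_one, h3, zpow_neg_one]

open Classical in
lemma case3 (f : ℤ[X]) (q e : ℕ) (D : ℤ)
    (hI : S_INTP) (hgd : GoodAt f l) (hT : Fintype.card (K →ₐ[ℚ_[l]] Om l) = Module.finrank ℚ_[l] K)
    (hN : ∀ x : K, algebraMap ℚ_[l] (Om l) (Algebra.norm ℚ_[l] x) = ∏ τ : K →ₐ[ℚ_[l]] Om l, τ x)
    (x w z : K) (hz : z ≠ 0) (hw : w ≠ 0) (β : (K →ₐ[ℚ_[l]] Om l) → Om l → Om l) (A : (Alg f ℚ_[l])ˣ)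
    (hA : ∀ ρ ∈ Rt f l, evl f l ρ A = ∏ τ : K →ₐ[ℚ_[l]] Om l, β τ ρ)
    (h3 : ∀ τ : K →ₐ[ℚ_[l]] Om l, ∃ ρ0 ∈ Rt f l, ‖τ x / τ w - ρ0‖ < 1 ∧
      (∀ ρ ∈ Rt f l, ρ ≠ ρ0 → ‖τ x / τ w - ρ‖ = 1 ∧ ‖τ w * (ρ0 - ρ) - β τ ρ‖ < ‖τ w * (ρ0 - ρ)‖) ∧
      ‖τ w * ((D : Om l) / ((f.leadingCoeff : Om l) * ∏ ρ' ∈ (Rt f l).erase ρ0, (ρ0 - ρ'))) *
        (τ z / τ w ^ e) ^ q - β τ ρ0‖ < ‖β τ ρ0‖) :
    ∃ (M : Om l → ℤ) (c : (ℚ_[l])ˣ) (κ : (Alg f ℚ_[l])ˣ), GInv l M ∧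
      ∑ ρ ∈ Rt f l, M ρ = Module.finrank ℚ_[l] K ∧
      ∀ ρ ∈ Rt f l, ‖evl f l ρ A -
        algebraMap ℚ_[l] (Om l) (c : ℚ_[l]) * evl f l ρ κ ^ q * Wf f l D M ρ‖ < ‖evl f l ρ A‖ := by
  choose r hr1 hr2 hr3 hr4 using h3
  have huniq : ∀ τ : K →ₐ[ℚ_[l]] Om l, ∀ ρ ∈ Rt f l, ‖τ x / τ w - ρ‖ < 1 → ρ = r τ := by
    intro τ ρ hρ h
    by_contra hne
    have := (hr3 τ ρ hρ hne).1
    linarith
  have hrg : ∀ (g : Om l ≃ₐ[ℚ_[l]] Om l) (τ : K →ₐ[ℚ_[l]] Om l), r (cmp g τ) = g (r τ) := by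
    intro g τ
    refine (huniq (cmp g τ) (g (r τ)) (aut_mem g (hr1 τ)) ?_).symm
    rw [cmp_apply, cmp_apply, ← map_div₀, ← map_sub, norm_aut]
    exact hr2 τ
  set M : Om l → ℤ := fun ρ => ((univ.filter (fun τ : K →ₐ[ℚ_[l]] Om l => r τ = ρ)).card : ℤ) with hM
  set y : K := z / w ^ e with hy
  have hy0 : y ≠ 0 := div_ne_zero hz (pow_ne_zero _ hw)
  set u : Om l → Om l := fun ρ => ∏ τ ∈ univ.filter (fun τ : K →ₐ[ℚ_[l]] Om l => r τ = ρ), τ y with hu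
  have hu0 : ∀ ρ ∈ Rt f l, u ρ ≠ 0 := by
    intro ρ _
    exact prod_ne_zero_iff.mpr fun τ _ => (map_ne_zero τ).mpr hy0
  have hug : ∀ (g : Om l ≃ₐ[ℚ_[l]] Om l), ∀ ρ ∈ Rt f l, u (g ρ) = g (u ρ) := by
    intro g ρ _
    simp only [hu]
    rw [map_prod]
    refine (Finset.prod_equiv (cmpE g) ?_ ?_).symm
    · intro τ
      simp only [mem_filter, mem_univ, true_and]
      rw [cmpE_apply, hrg]
      exact ⟨fun h => by rw [h], fun h => g.injective h⟩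
    · intro τ _
      rw [cmpE_apply, cmp_apply]
  obtain ⟨κ, hκ, -⟩ := (hI f l hgd).1 u hug hu0
  have hNw : Algebra.norm ℚ_[l] w ≠ 0 := Algebra.norm_ne_zero_iff.mpr hw
  refine ⟨M, Units.mk0 _ hNw, κ, ?_, ?_, ?_⟩
  · intro g ρ
    simp only [hM]
    congr 1
    refine (Finset.card_equiv (cmpE g) ?_).symm
    intro τ
    simp only [mem_filter, mem_univ, true_and]
    rw [cmpE_apply, hrg]
    exact ⟨fun h => by rw [h], fun h => g.injective h⟩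
  · simp only [hM]
    rw [← Nat.cast_sum, ← card_eq_sum_card_fiberwise (fun τ _ => hr1 τ), card_univ, hT]
  · intro ρ hρ
    rw [hκ ρ hρ, hA ρ hρ, Units.val_mk0, hN w]
    have key : (∏ τ : K →ₐ[ℚ_[l]] Om l, τ w) * u ρ ^ q * Wf f l D M ρ =
        ∏ τ : K →ₐ[ℚ_[l]] Om l, (τ w * if r τ = ρ then
          ((D : Om l) / ((f.leadingCoeff : Om l) * ∏ ρ' ∈ (Rt f l).erase ρ, (ρ - ρ'))) * τ y ^ q
          else r τ - ρ) := by
      rw [prod_mul_distrib, prod_ite, prod_mul_distrib, prod_const, prod_pow]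
      have h1 : ∏ τ ∈ univ.filter (fun τ : K →ₐ[ℚ_[l]] Om l => ¬ r τ = ρ), (r τ - ρ) =
          ∏ ρ' ∈ (Rt f l).erase ρ, (ρ' - ρ) ^ M ρ' := by
        rw [← prod_fiberwise_of_maps_to (g := r) (t := (Rt f l).erase ρ)]
        · refine prod_congr rfl fun ρ' hρ' => ?_
          have h2 : ∀ τ ∈ (univ.filter (fun τ : K →ₐ[ℚ_[l]] Om l => ¬ r τ = ρ)).filter
              (fun τ => r τ = ρ'), r τ - ρ = ρ' - ρ := by
            intro τ hτ
            rw [(mem_filter.mp hτ).2]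
          rw [prod_congr rfl h2, prod_const, hM]
          simp only
          rw [zpow_natCast]
          congr 2
          ext τ
          simp only [mem_filter, mem_univ, true_and]
          constructor
          · exact fun h => h.2
          · intro h
            refine ⟨?_, h⟩
            rw [h]
            exact (mem_erase.mp hρ').1
        · intro τ hτ
          exact mem_erase.mpr ⟨(mem_filter.mp hτ).2, hr1 τ⟩
      rw [h1]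
      unfold Wf
      have h3 : M ρ = ((univ.filter (fun τ : K →ₐ[ℚ_[l]] Om l => r τ = ρ)).card : ℤ) := rfl
      conv_lhs => rw [h3, zpow_natCast]
      simp only [hu]
      ring
    rw [key]
    refine ap_prod _ fun τ _ => ?_
    by_cases h : r τ = ρ
    · rw [if_pos h, ← h, norm_sub_rev]
      have := hr4 τ
      have h5 : τ y = τ z / τ w ^ e := by rw [hy, map_div₀, map_pow]
      rw [h5, ← mul_assoc]
      exact this
    · rw [if_neg h]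
      exact ap_symm (hr3 τ ρ hρ (fun h' => h h'.symm)).2

end Pool.Agent.Q241.ZC
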