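import Pool.Agent.Q239.EL.ROOT
import Pool.Agent.Q241.ZC.Loc

/-! # Project ZC of helper51: job PL, the primes above l and the zeros of f -/

set_option autoImplicit false

namespace Pool.Agent.Q241.ZC

open Polynomial NumberField IsDedekindDomain Finset
open Pool.Agent.Q51.ZC
open Pool.Agent.Q51.EL (Abv Setup)
open Pool.Agent.Q239.EL (theta_deg theta_minpoly ab_finite ph sum_ph mu_l val_int ph_pos below
  prime_unique lead_ne)

variable {l : ℕ} [hl : Fact l.Prime]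

lemma norm_add_le_max (x y : Om l) : ‖x + y‖ ≤ max ‖x‖ ‖y‖ := PadicAlgCl.isNonarchimedean l _ _

lemma norm_le_one_of_integral {y : Om l} (h : IsIntegral ℤ y) : ‖y‖ ≤ 1 := by
  have h1 : IsIntegral (Valued.v (R := Om l)).integer y := h.tower_top
  have h2 := (Valuation.integer.integers (Valued.v (R := Om l))).mem_of_integral h1
  have h3 : Valued.v y ≤ (1 : NNReal) := h2
  rw [PadicAlgCl.valuation_def] at h3
  exact_mod_cast h3

lemma norm_l : ‖((l : ℕ) : Om l)‖ = (l : ℝ)⁻¹ := by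
  have h := norm_natCast_int (l := l) (l : ℤ)
  rw [Int.cast_natCast] at h
  rw [h, Int.cast_natCast, Padic.norm_p]

lemma l_gt_one : (1 : ℝ) < l := by exact_mod_cast hl.out.one_lt

section field

variable {f : ℤ[X]} {L : Type} [Field L] [NumberField L] {θ : L}

lemma exists_poly (hs : Setup f L θ) (x : L) : ∃ h : ℚ[X], aeval θ h = x := by
  have hint : IsIntegral ℚ θ := Algebra.IsIntegral.isIntegral θ
  have htop : IntermediateField.adjoin ℚ {θ} = ⊤ :=
    (Field.primitive_element_iff_minpoly_natDegree_eq ℚ θ).mpr (theta_deg hs)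
  have htop' : Algebra.adjoin ℚ {θ} = ⊤ := by
    rw [← IntermediateField.adjoin_simple_toSubalgebra_of_isAlgebraic hint.isAlgebraic, htop]
    rfl
  have hx : x ∈ Algebra.adjoin ℚ {θ} := by
    rw [htop']
    trivial
  rw [Algebra.adjoin_singleton_eq_range_aeval] at hx
  exact hx

lemma exists_hom (hs : Setup f L θ) {ρ : Om l} (hρ : ρ ∈ Rt f l) :
    ∃ φ : L →ₐ[ℚ] Om l, φ θ = ρ := by
  have hint : IsIntegral ℚ θ := Algebra.IsIntegral.isIntegral θ
  have h1 : ρ ∈ (minpoly ℚ θ).rootSet (Om l) := by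
    rw [mem_rootSet]
    refine ⟨minpoly.ne_zero hint, ?_⟩
    have h2 := isZ_of_mem hρ
    have h3 : (f.map (Int.castRingHom (Om l))).eval ρ = aeval ρ (f.map (Int.castRingHom ℚ)) := by
      rw [aeval_def, eval₂_map, eval_map]
      congr 1
    have h4 : aeval ρ (f.map (Int.castRingHom ℚ)) = 0 := by
      rw [← h3]
      exact h2
    rw [theta_minpoly hs, map_mul, aeval_C] at h4
    rcases mul_eq_zero.mp h4 with h5 | h5
    · exfalso
      rw [FaithfulSMul.algebraMap_eq_zero_iff] at h5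
      exact lead_ne hs (by exact_mod_cast h5)
    · exact h5
  rw [← Algebra.IsAlgebraic.range_eval_eq_rootSet_minpoly] at h1
  exact h1

lemma int_le (φ : L →ₐ[ℚ] Om l) (x : 𝓞 L) : ‖φ (x : L)‖ ≤ 1 :=
  norm_le_one_of_integral (map_isIntegral_int φ (RingOfIntegers.isIntegral_coe x))

/-- the ideal given by an embedding -/
noncomputable def idl (φ : L →ₐ[ℚ] Om l) : Ideal (𝓞 L) where
  carrier := {x | ‖φ (x : L)‖ < 1}
  add_mem' := by
    intro a b ha hb
    rw [Set.mem_ofPred_eq] at ha hb ⊢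
    have h : ((a + b : 𝓞 L) : L) = (a : L) + (b : L) := map_add (algebraMap (𝓞 L) L) a b
    rw [h, map_add]
    exact lt_of_le_of_lt (norm_add_le_max _ _) (max_lt ha hb)
  zero_mem' := by
    rw [Set.mem_ofPred_eq]
    simp
  smul_mem' := by
    intro c x hx
    rw [Set.mem_ofPred_eq] at hx ⊢
    have h : ((c • x : 𝓞 L) : L) = (c : L) * (x : L) := map_mul (algebraMap (𝓞 L) L) c x
    rw [h, map_mul, norm_mul]
    calc ‖φ (c : L)‖ * ‖φ (x : L)‖ ≤ 1 * ‖φ (x : L)‖ :=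
          mul_le_mul_of_nonneg_right (int_le φ c) (norm_nonneg _)
      _ < 1 := by rw [one_mul]; exact hx

lemma mem_idl (φ : L →ₐ[ℚ] Om l) (x : 𝓞 L) : x ∈ idl φ ↔ ‖φ (x : L)‖ < 1 := Iff.rfl

lemma l_mem_idl (φ : L →ₐ[ℚ] Om l) : ((l : ℕ) : 𝓞 L) ∈ idl φ := by
  rw [mem_idl]
  have h : (((l : ℕ) : 𝓞 L) : L) = ((l : ℕ) : L) := map_natCast (algebraMap (𝓞 L) L) l
  rw [h, map_natCast, norm_l]
  exact inv_lt_one_of_one_lt₀ l_gt_one

/-- the prime given by an embedding -/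
noncomputable def pid (φ : L →ₐ[ℚ] Om l) : HeightOneSpectrum (𝓞 L) where
  asIdeal := idl φ
  isPrime := by
    refine ⟨?_, ?_⟩
    · rw [Ideal.ne_top_iff_one, mem_idl]
      have h : ((1 : 𝓞 L) : L) = 1 := map_one (algebraMap (𝓞 L) L)
      rw [h, map_one, norm_one]
      exact lt_irrefl _
    · intro x y hxy
      rw [mem_idl] at hxy ⊢
      rw [mem_idl]
      have h : ((x * y : 𝓞 L) : L) = (x : L) * (y : L) := map_mul (algebraMap (𝓞 L) L) x y
      rw [h, map_mul, norm_mul] at hxy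
      by_contra hcon
      push Not at hcon
      exact absurd hxy (not_lt.mpr (one_le_mul_of_one_le_of_one_le hcon.1 hcon.2))
  ne_bot := by
    intro h
    have h1 := l_mem_idl (L := L) φ
    rw [h, Ideal.mem_bot] at h1
    exact hl.out.ne_zero (by exact_mod_cast h1)

lemma abv_pid (φ : L →ₐ[ℚ] Om l) : Abv (pid φ) l := l_mem_idl φ

lemma mem_pid (φ : L →ₐ[ℚ] Om l) (x : 𝓞 L) : x ∈ (pid φ).asIdeal ↔ ‖φ (x : L)‖ < 1 := Iff.rfl

lemma norm_unit (φ : L →ₐ[ℚ] Om l) {x : 𝓞 L} (hx : x ∉ (pid φ).asIdeal) : ‖φ (x : L)‖ = 1 := by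
  rw [mem_pid] at hx
  exact le_antisymm (int_le φ x) (not_lt.mp hx)

lemma norm_val_one (φ : L →ₐ[ℚ] Om l) {y : L} (hy : (pid φ).valuation L y = 1) : ‖φ y‖ = 1 := by
  obtain ⟨n, d, h⟩ := HeightOneSpectrum.exists_primeCompl_mul_eq_of_integer (pid φ) y hy.le
  have hd : (d : 𝓞 L) ∉ (pid φ).asIdeal := d.2
  have hd1 := norm_unit φ hd
  have hdv : (pid φ).valuation L (algebraMap (𝓞 L) L (d : 𝓞 L)) = 1 :=
    (HeightOneSpectrum.valuation_eq_one_iff_notMem (K := L) (pid φ)).2 hd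
  have hn : n ∉ (pid φ).asIdeal := by
    rw [← HeightOneSpectrum.valuation_eq_one_iff_notMem (K := L) (pid φ), ← h, map_mul, hy, hdv, one_mul]
  have hn1 := norm_unit φ hn
  have h2 : ‖φ (y * algebraMap (𝓞 L) L (d : 𝓞 L))‖ = ‖φ (algebraMap (𝓞 L) L n)‖ := by rw [h]
  rw [map_mul, norm_mul] at h2
  have h3 : ‖φ (algebraMap (𝓞 L) L (d : 𝓞 L))‖ = 1 := hd1
  have h4 : ‖φ (algebraMap (𝓞 L) L n)‖ = 1 := hn1
  rw [h3, h4, mul_one] at h2
  exact h2

lemma val_norm (hsq : Squarefree (Ideal.span {(l : 𝓞 L)})) (φ : L →ₐ[ℚ] Om l) {x : L} (hx : x ≠ 0) :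
    ∃ k : ℤ, (pid φ).valuation L x = WithZero.exp k ∧ ‖φ x‖ = (l : ℝ) ^ k := by
  have hl0 : (l : 𝓞 L) ≠ 0 := by exact_mod_cast hl.out.ne_zero
  have hlv : (pid φ).valuation L ((l : ℕ) : L) = WithZero.exp (-1 : ℤ) := by
    have h1 := val_int (pid φ) hl0
    rw [mu_l hsq (abv_pid φ)] at h1
    have h : (((l : ℕ) : 𝓞 L) : L) = ((l : ℕ) : L) := map_natCast (algebraMap (𝓞 L) L) l
    rw [h] at h1
    simpa using h1
  have hv0 : (pid φ).valuation L x ≠ 0 := (Valuation.ne_zero_iff _).mpr hx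
  obtain ⟨k, hk⟩ : ∃ k : ℤ, (pid φ).valuation L x = WithZero.exp k :=
    ⟨WithZero.log ((pid φ).valuation L x), (WithZero.exp_log hv0).symm⟩
  refine ⟨k, hk, ?_⟩
  have hy : (pid φ).valuation L (x * ((l : ℕ) : L) ^ k) = 1 := by
    rw [map_mul, map_zpow₀, hk, hlv, ← WithZero.exp_zsmul, ← WithZero.exp_add]
    simp
  have h1 := norm_val_one φ hy
  rw [map_mul, map_zpow₀, map_natCast, norm_mul, norm_zpow, norm_l, inv_zpow] at h1
  have h2 : (l : ℝ) ^ k ≠ 0 := zpow_ne_zero _ (by have := l_gt_one (l := l); positivity)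
  field_simp at h1
  exact h1

lemma val_iff (hsq : Squarefree (Ideal.span {(l : 𝓞 L)})) (φ : L →ₐ[ℚ] Om l) (x : L) (k : ℤ) :
    (pid φ).valuation L x = WithZero.exp k ↔ ‖φ x‖ = (l : ℝ) ^ k := by
  have hl1 := l_gt_one (l := l)
  by_cases hx : x = 0
  · subst hx
    rw [map_zero, map_zero, norm_zero]
    constructor
    · intro h
      exact absurd h.symm WithZero.exp_ne_zero
    · intro h
      exact absurd h.symm (zpow_ne_zero _ (by positivity))
  · obtain ⟨j, h1, h2⟩ := val_norm hsq φ hx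
    rw [h1, h2]
    constructor
    · intro h
      rw [WithZero.exp_injective h]
    · intro h
      rw [zpow_right_injective₀ (by linarith) hl1.ne' h]

end field

/-! ### The residue field -/

variable (l) in
/-- the integers of `Om l` -/
noncomputable def OV : Subring (Om l) where
  carrier := {x | ‖x‖ ≤ 1}
  mul_mem' := by
    intro a b ha hb
    rw [Set.mem_ofPred_eq] at ha hb ⊢
    rw [norm_mul]
    exact mul_le_one₀ ha (norm_nonneg _) hb
  one_mem' := by simp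
  add_mem' := by
    intro a b ha hb
    rw [Set.mem_ofPred_eq] at ha hb ⊢
    exact (norm_add_le_max _ _).trans (max_le ha hb)
  zero_mem' := by simp
  neg_mem' := by
    intro a ha
    rw [Set.mem_ofPred_eq] at ha ⊢
    rw [norm_neg]
    exact ha

variable (l) in
/-- the maximal ideal -/
noncomputable def OM : Ideal (OV l) where
  carrier := {x | ‖(x : Om l)‖ < 1}
  add_mem' := by
    intro a b ha hb
    rw [Set.mem_ofPred_eq] at ha hb ⊢
    rw [Subring.coe_add]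
    exact lt_of_le_of_lt (norm_add_le_max _ _) (max_lt ha hb)
  zero_mem' := by
    rw [Set.mem_ofPred_eq]
    simp
  smul_mem' := by
    intro c x hx
    rw [Set.mem_ofPred_eq] at hx ⊢
    rw [smul_eq_mul, Subring.coe_mul, norm_mul]
    have hc : ‖(c : Om l)‖ ≤ 1 := c.2
    calc ‖(c : Om l)‖ * ‖(x : Om l)‖ ≤ 1 * ‖(x : Om l)‖ :=
          mul_le_mul_of_nonneg_right hc (norm_nonneg _)
      _ < 1 := by rw [one_mul]; exact hx

lemma mem_OM (x : OV l) : x ∈ OM l ↔ ‖(x : Om l)‖ < 1 := Iff.rfl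

instance : (OM l).IsMaximal := by
  rw [Ideal.isMaximal_iff]
  refine ⟨?_, ?_⟩
  · rw [mem_OM, Subring.coe_one, norm_one]
    exact lt_irrefl _
  · intro J x _ hx hxJ
    rw [mem_OM] at hx
    have h1 : ‖(x : Om l)‖ = 1 := le_antisymm x.2 (not_lt.mp hx)
    have h0 : (x : Om l) ≠ 0 := by
      intro h
      rw [h, norm_zero] at h1
      exact zero_ne_one h1
    have h2 : ‖((x : Om l))⁻¹‖ ≤ 1 := by rw [norm_inv, h1, inv_one]
    have h3 : (⟨(x : Om l)⁻¹, h2⟩ : OV l) * x = 1 := by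
      apply Subtype.ext
      rw [Subring.coe_mul, Subring.coe_one]
      exact inv_mul_cancel₀ h0
    rw [← h3]
    exact J.mul_mem_left _ hxJ

noncomputable instance : Field (OV l ⧸ OM l) := Ideal.Quotient.field _

section field

variable {L : Type} [Field L] [NumberField L]

/-- the reduction of an embedding -/
noncomputable def red (φ : L →ₐ[ℚ] Om l) : 𝓞 L →+* (OV l ⧸ OM l) :=
  (Ideal.Quotient.mk (OM l)).comp
    (((φ : L →+* Om l).comp (algebraMap (𝓞 L) L)).codRestrict (OV l) (fun x => int_le φ x))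

lemma red_eq (φ ψ : L →ₐ[ℚ] Om l) (x y : 𝓞 L) : red φ x = red ψ y ↔ ‖φ (x : L) - ψ (y : L)‖ < 1 := by
  unfold red
  rw [RingHom.comp_apply, RingHom.comp_apply, Ideal.Quotient.eq, mem_OM]
  rfl

lemma red_zero (φ : L →ₐ[ℚ] Om l) (x : 𝓞 L) (hx : ‖φ (x : L)‖ < 1) : red φ x = 0 := by
  have h := (red_eq φ φ x 0).mpr (by simpa using hx)
  rw [h, map_zero]

lemma abs_norm {v : HeightOneSpectrum (𝓞 L)} (hv : Abv v l) :
    Ideal.absNorm v.asIdeal = l ^ dg l v := by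
  obtain ⟨p, k, hp, hpv, hk, hpk⟩ := below v
  have h1 : l = p := prime_unique hl.out hp hv hpv
  subst h1
  unfold dg
  rw [hpk, padicValNat.prime_pow]

lemma fiber_card {v : HeightOneSpectrum (𝓞 L)} (hv : Abv v l) (S : Finset (Om l))
    (φ : Om l → (L →ₐ[ℚ] Om l)) (h1 : ∀ ρ ∈ S, pid (φ ρ) = v) (t : 𝓞 L)
    (h2 : ∀ ρ ∈ S, ∀ ρ' ∈ S, ρ ≠ ρ' → ‖φ ρ (t : L) - φ ρ' (t : L)‖ = 1) : S.card ≤ dg l v := by
  classical
  haveI hmax : v.asIdeal.IsMaximal := v.isMaximal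
  letI : Field (𝓞 L ⧸ v.asIdeal) := Ideal.Quotient.field v.asIdeal
  have hc : Nat.card (𝓞 L ⧸ v.asIdeal) = l ^ dg l v := by
    rw [← abs_norm hv, Ideal.absNorm_apply, Submodule.cardQuot_apply]
  haveI hfin : Finite (𝓞 L ⧸ v.asIdeal) := Nat.finite_of_card_ne_zero (by
    rw [hc]
    exact pow_ne_zero _ hl.out.ne_zero)
  haveI c1 : CharP (𝓞 L ⧸ v.asIdeal) l := by
    rw [CharP.charP_iff_prime_eq_zero hl.out]
    have h3 : ((l : ℕ) : 𝓞 L ⧸ v.asIdeal) = Ideal.Quotient.mk v.asIdeal ((l : ℕ) : 𝓞 L) := by simp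
    rw [h3, Ideal.Quotient.eq_zero_iff_mem]
    exact hv
  haveI c2 : CharP (OV l ⧸ OM l) l := by
    rw [CharP.charP_iff_prime_eq_zero hl.out]
    have h3 : ((l : ℕ) : OV l ⧸ OM l) = Ideal.Quotient.mk (OM l) ((l : ℕ) : OV l) := by simp
    rw [h3, Ideal.Quotient.eq_zero_iff_mem, mem_OM]
    have h4 : (((l : ℕ) : OV l) : Om l) = ((l : ℕ) : Om l) := by simp
    rw [h4, norm_l]
    exact inv_lt_one_of_one_lt₀ l_gt_one
  letI a1 : Algebra (ZMod l) (𝓞 L ⧸ v.asIdeal) := ZMod.algebra _ l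
  letI a2 : Algebra (ZMod l) (OV l ⧸ OM l) := ZMod.algebra _ l
  haveI : Module.Finite (ZMod l) (𝓞 L ⧸ v.asIdeal) := Module.Finite.of_finite
  have hfr : Module.finrank (ZMod l) (𝓞 L ⧸ v.asIdeal) = dg l v := by
    have h3 := Module.natCard_eq_pow_finrank (K := ZMod l) (V := 𝓞 L ⧸ v.asIdeal)
    rw [hc, Nat.card_zmod] at h3
    exact (Nat.pow_right_injective hl.out.two_le h3).symm
  have hle := card_algHom_le_finrank (ZMod l) (𝓞 L ⧸ v.asIdeal) (OV l ⧸ OM l)
  rw [hfr] at hle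
  refine le_trans ?_ hle
  have hz : ∀ (ρ : S), ∀ x ∈ v.asIdeal, red (φ ρ.1) x = 0 := by
    intro ρ x hx
    refine red_zero _ _ ?_
    rw [← mem_pid, h1 ρ.1 ρ.2]
    exact hx
  let G : S → ((𝓞 L ⧸ v.asIdeal) →ₐ[ZMod l] (OV l ⧸ OM l)) := fun ρ =>
    { Ideal.Quotient.lift v.asIdeal (red (φ ρ.1)) (hz ρ) with
      commutes' := by
        intro r
        exact RingHom.congr_fun (RingHom.ext_zmod
          ((Ideal.Quotient.lift v.asIdeal (red (φ ρ.1)) (hz ρ)).comp (algebraMap (ZMod l) (𝓞 L ⧸ v.asIdeal)))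
          (algebraMap (ZMod l) (OV l ⧸ OM l))) r }
  have hG : ∀ (ρ : S) (x : 𝓞 L), G ρ (Ideal.Quotient.mk v.asIdeal x) = red (φ ρ.1) x := by
    intro ρ x
    rfl
  have hinj : Function.Injective G := by
    intro ρ ρ' h
    by_contra hne
    have h3 := hG ρ t
    rw [h, hG ρ' t] at h3
    have h4 := (red_eq _ _ _ _).mp h3
    rw [h2 ρ'.1 ρ'.2 ρ.1 ρ.2 (fun h5 => hne (Subtype.ext h5.symm))] at h4
    exact lt_irrefl _ h4
  have h5 := Nat.card_le_card_of_injective G hinj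
  rw [Nat.card_eq_fintype_card, Fintype.card_coe] at h5
  exact h5

end field

lemma aeval_aut (g : Om l ≃ₐ[ℚ_[l]] Om l) (ρ : Om l) (h : ℚ[X]) : aeval (g ρ) h = g (aeval ρ h) := by
  rw [aeval_def, aeval_def]
  have h1 := hom_eval₂ h (algebraMap ℚ (Om l)) (g : Om l →+* Om l) ρ
  rw [RingHom.coe_coe] at h1
  rw [h1]
  congr 1
  exact RingHom.ext_rat _ _

theorem pl : S_PL := by
  classical
  intro f L _ _ θ hs l hl hgd hsq
  have hφ : ∀ ρ : Om l, ∃ φ : L →ₐ[ℚ] Om l, ρ ∈ Rt f l → φ θ = ρ := by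
    intro ρ
    by_cases h : ρ ∈ Rt f l
    · obtain ⟨φ, h1⟩ := exists_hom hs h
      exact ⟨φ, fun _ => h1⟩
    · exact ⟨IsAlgClosed.lift, fun h' => absurd h' h⟩
  choose φ hφ using hφ
  have hev : ∀ ρ ∈ Rt f l, ∀ h : ℚ[X], φ ρ (aeval θ h) = aeval ρ h := by
    intro ρ hρ h
    rw [← aeval_algHom_apply, hφ ρ hρ]
  have hlc : ‖(f.leadingCoeff : Om l)‖ = 1 := norm_one_of_not_dvd hgd.lead
  have hint : IsIntegral ℤ (f.leadingCoeff • θ) := isIntegral_leadingCoeff_smul f θ hs.root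
  set t : 𝓞 L := ⟨f.leadingCoeff • θ, hint⟩ with ht
  have hfib : ∀ v : HeightOneSpectrum (𝓞 L), Abv v l →
      ((Rt f l).filter (fun ρ => pid (φ ρ) = v)).card ≤ dg l v := by
    intro v hv
    refine fiber_card hv _ φ (fun ρ hρ => (mem_filter.mp hρ).2) t ?_
    intro ρ hρ ρ' hρ' hne
    have e : (t : L) = (f.leadingCoeff : L) * θ := by
      rw [ht, ← zsmul_eq_mul]
      rfl
    rw [e, map_mul, map_mul, map_intCast, map_intCast, hφ ρ (mem_filter.mp hρ).1,
      hφ ρ' (mem_filter.mp hρ').1, ← mul_sub, norm_mul, hlc, one_mul]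
    exact hgd.diff ρ (mem_filter.mp hρ).1 ρ' (mem_filter.mp hρ').1 hne
  have hsum : ∀ v ∈ (ab_finite (L := L) hl.out.ne_zero).toFinset,
      ((Rt f l).filter (fun ρ => pid (φ ρ) = v)).card = ph l v.asIdeal := by
    rw [← sum_eq_sum_iff_of_le]
    · rw [sum_ph hsq, hs.deg, ← hgd.card]
      refine (card_eq_sum_card_fiberwise ?_).symm
      intro ρ _
      rw [Set.Finite.coe_toFinset]
      exact abv_pid (φ ρ)
    · intro v hv
      exact hfib v ((ab_finite hl.out.ne_zero).mem_toFinset.mp hv)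
  refine ⟨fun ρ => pid (φ ρ), ?_, ?_⟩
  · intro ρ hρ
    refine ⟨abv_pid _, ?_, ?_⟩
    · intro g
      refine HeightOneSpectrum.ext ?_
      ext x
      rw [mem_pid, mem_pid]
      obtain ⟨h, hh⟩ := exists_poly hs (x : L)
      rw [← hh, hev _ (aut_mem g hρ), hev _ hρ, aeval_aut, norm_aut]
    · intro h k
      rw [val_iff hsq, hev ρ hρ]
  · intro v hv
    exact ⟨ph_pos hv, hsum v ((ab_finite hl.out.ne_zero).mem_toFinset.mpr hv)⟩

end Pool.Agent.Q241.ZC
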