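import Pool.Agent.Q241.ZC.Loc

/-! # Project ZC of helper51: jobs L0 and L1 -/

set_option autoImplicit false

namespace Pool.Agent.Q241.ZC

open Polynomial Finset
open Pool.Agent.Q51.ZC
open Pool.Agent.Q51.SE (Alg cl Point IsValue IsUnitAt)

variable {l : ℕ} [Fact l.Prime]

/-- the three cases for the values at a closed point -/
lemma three (h1 : S_EMB) (h2 : S_LAN) (h3 : S_TRN) (h4 : S_INTP) (f : ℤ[X])
    (hf : Irreducible (f.map (Int.castRingHom ℚ))) (q m : ℕ) (D : ℤ) (hq : 0 < q)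
    (hqn : q ∣ f.natDegree) (hgd : GoodAt f l) (hD : D ≠ 0) (P : LPt f m D l) (A : (Alg f ℚ_[l])ˣ)
    (hA : P.IsVal q A) : ∃ z : P.K, z ≠ 0 ∧
    ((P.pt.x ≠ 0 ∧ (∀ ρ ∈ Rt f l, ‖evl f l ρ A - algebraMap ℚ_[l] (Om l) (Algebra.norm ℚ_[l] P.pt.x)‖ <
        ‖evl f l ρ A‖) ∧ ∀ τ : P.K →ₐ[ℚ_[l]] Om l, ‖(D : Om l)‖ * ‖τ z‖ ^ q = ‖τ P.pt.x‖ ^ f.natDegree) ∨
      (P.pt.w ≠ 0 ∧ (∀ τ : P.K →ₐ[ℚ_[l]] Om l, ‖τ (P.pt.x / P.pt.w)‖ ≤ 1) ∧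
        (∀ τ : P.K →ₐ[ℚ_[l]] Om l, ∀ ρ ∈ Rt f l, ‖τ (P.pt.x / P.pt.w) - ρ‖ = 1) ∧
        (∀ ρ ∈ Rt f l, evl f l ρ A = algebraMap ℚ_[l] (Om l) (Algebra.norm ℚ_[l] P.pt.w) *
          ∏ τ : P.K →ₐ[ℚ_[l]] Om l, (τ (P.pt.x / P.pt.w) - ρ)) ∧
        ∀ τ : P.K →ₐ[ℚ_[l]] Om l, ‖(D : Om l)‖ * ‖τ z‖ ^ q = ‖τ P.pt.w‖ ^ f.natDegree) ∨
      ∃ (M : Om l → ℤ) (c : (ℚ_[l])ˣ) (κ : (Alg f ℚ_[l])ˣ), GInv l M ∧
      ∑ ρ ∈ Rt f l, M ρ = Module.finrank ℚ_[l] P.K ∧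
      ∀ ρ ∈ Rt f l, ‖evl f l ρ A -
        algebraMap ℚ_[l] (Om l) (c : ℚ_[l]) * evl f l ρ κ ^ q * Wf f l D M ρ‖ < ‖evl f l ρ A‖) := by
  obtain ⟨z, β, hb1, hb2, hb3, -⟩ := h1 f hf q m D l P A hA
  obtain ⟨t1, t2, t3, t4⟩ := h3 l P.K
  have hne : Nonempty (P.K →ₐ[ℚ_[l]] Om l) := by
    rw [← Fintype.card_pos_iff, t2]
    exact t3
  obtain ⟨τ0⟩ := hne
  have hlc : (f.leadingCoeff : Om l) ≠ 0 := by
    have h5 : f.leadingCoeff ≠ 0 := fun h => hgd.lead (by rw [h]; exact dvd_zero _)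
    exact_mod_cast h5
  have hz : z ≠ 0 := by
    rintro rfl
    have h5 := hb3 τ0
    rw [map_zero, zero_pow hq.ne', mul_zero] at h5
    rcases mul_eq_zero.mp h5 with h6 | h6
    · exact hlc h6
    · obtain ⟨ρ, hρ, h7⟩ := prod_eq_zero_iff.mp h6
      exact (hb2 τ0 ρ hρ).1 h7
  have hlan := fun τ : P.K →ₐ[ℚ_[l]] Om l => h2 f q D l hgd hq hqn hD (τ P.pt.x) (τ P.pt.w) (τ z) (β τ)
    (P.pt.ne.imp (fun h => (map_ne_zero τ).mpr h) (fun h => (map_ne_zero τ).mpr h))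
    (hb2 τ) (hb3 τ)
  have hnorm : ∀ (τ τ' : P.K →ₐ[ℚ_[l]] Om l) (x : P.K), ‖τ' x‖ = ‖τ x‖ := by
    intro τ τ' x
    obtain ⟨g, rfl⟩ := t1 τ τ'
    exact norm_aut g (τ x)
  have hdis : ∀ (τ τ' : P.K →ₐ[ℚ_[l]] Om l) (x : P.K) (ρ : Om l), ρ ∈ Rt f l →
      ∃ ρ' ∈ Rt f l, ‖τ' x - ρ‖ = ‖τ x - ρ'‖ := by
    intro τ τ' x ρ hρ
    obtain ⟨g, rfl⟩ := t1 τ τ'
    refine ⟨g.symm ρ, aut_mem g.symm hρ, ?_⟩
    conv_rhs => rw [← norm_aut g, map_sub, AlgEquiv.apply_symm_apply]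
    rfl
  refine ⟨z, hz, ?_⟩
  rcases hlan τ0 with h | h | h
  · left
    have hc : ∀ τ : P.K →ₐ[ℚ_[l]] Om l, ‖τ P.pt.w‖ < ‖τ P.pt.x‖ := by
      intro τ
      rw [hnorm τ0 τ, hnorm τ0 τ]
      exact h.1
    have hall : ∀ τ : P.K →ₐ[ℚ_[l]] Om l, (∀ ρ ∈ Rt f l, ‖τ P.pt.x - β τ ρ‖ < ‖τ P.pt.x‖) ∧
        ‖(D : Om l)‖ * ‖τ z‖ ^ q = ‖τ P.pt.x‖ ^ f.natDegree := by
      intro τ
      have hno : ¬ (τ P.pt.w ≠ 0 ∧ ‖τ P.pt.x / τ P.pt.w‖ ≤ 1) := by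
        rintro ⟨h5, h6⟩
        rw [norm_div, div_le_one (norm_pos_iff.mpr h5)] at h6
        exact absurd (hc τ) (not_lt.mpr h6)
      rcases hlan τ with h' | h' | h'
      · exact h'.2
      · exact absurd ⟨h'.1, h'.2.1⟩ hno
      · exact absurd ⟨h'.1, h'.2.1⟩ hno
    refine ⟨?_, ?_, fun τ => (hall τ).2⟩
    · intro h0
      have := h.1
      rw [h0, map_zero, norm_zero] at this
      exact absurd this (not_lt.mpr (norm_nonneg _))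
    · intro ρ hρ
      rw [hb1 ρ hρ, t4]
      exact ap_prod _ fun τ _ => ap_symm ((hall τ).1 ρ hρ)
  · right; left
    have hw : P.pt.w ≠ 0 := fun h0 => h.1 (by rw [h0, map_zero])
    have hw' : ∀ τ : P.K →ₐ[ℚ_[l]] Om l, τ P.pt.w ≠ 0 := fun τ => (map_ne_zero τ).mpr hw
    have hd : ∀ τ : P.K →ₐ[ℚ_[l]] Om l, τ P.pt.x / τ P.pt.w = τ (P.pt.x / P.pt.w) :=
      fun τ => (map_div₀ τ _ _).symm
    simp only [hd] at hlan h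
    have hall : ∀ τ : P.K →ₐ[ℚ_[l]] Om l, (∀ ρ ∈ Rt f l, β τ ρ = τ P.pt.w * (τ (P.pt.x / P.pt.w) - ρ)) ∧
        (∀ ρ ∈ Rt f l, ‖τ (P.pt.x / P.pt.w) - ρ‖ = 1) ∧
        ‖(D : Om l)‖ * ‖τ z‖ ^ q = ‖τ P.pt.w‖ ^ f.natDegree := by
      intro τ
      rcases hlan τ with h' | h' | h'
      · exfalso
        have h5 := h.2.1
        rw [← hd, norm_div, div_le_one (norm_pos_iff.mpr (hw' τ0)), ← hnorm τ0 τ, ← hnorm τ0 τ] at h5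
        exact absurd h'.1 (not_lt.mpr h5)
      · exact ⟨fun ρ hρ => (h'.2.2.1 ρ hρ).2, fun ρ hρ => (h'.2.2.1 ρ hρ).1, h'.2.2.2⟩
      · exfalso
        obtain ⟨-, -, ρ0, hρ0, h5, -⟩ := h'
        obtain ⟨ρ', hρ', h6⟩ := hdis τ0 τ (P.pt.x / P.pt.w) ρ0 hρ0
        rw [h6, (h.2.2.1 ρ' hρ').1] at h5
        exact lt_irrefl _ h5
    refine ⟨hw, ?_, fun τ => (hall τ).2.1, ?_, fun τ => (hall τ).2.2⟩
    · intro τ
      rw [hnorm τ0 τ]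
      exact h.2.1
    · intro ρ hρ
      rw [hb1 ρ hρ, t4, ← prod_mul_distrib]
      exact prod_congr rfl fun τ _ => (hall τ).1 ρ hρ
  · right; right
    have hw : P.pt.w ≠ 0 := fun h0 => h.1 (by rw [h0, map_zero])
    have hw' : ∀ τ : P.K →ₐ[ℚ_[l]] Om l, τ P.pt.w ≠ 0 := fun τ => (map_ne_zero τ).mpr hw
    refine case3 f q (f.natDegree / q) D h4 hgd t2 t4 P.pt.x P.pt.w z hz hw β A hb1 ?_
    intro τ
    have hd : ∀ τ : P.K →ₐ[ℚ_[l]] Om l, τ P.pt.x / τ P.pt.w = τ (P.pt.x / P.pt.w) :=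
      fun τ => (map_div₀ τ _ _).symm
    rcases hlan τ with h' | h' | h'
    · exfalso
      have h5 := h.2.1
      rw [norm_div, div_le_one (norm_pos_iff.mpr (hw' τ0)), ← hnorm τ0 τ, ← hnorm τ0 τ] at h5
      exact absurd h'.1 (not_lt.mpr h5)
    · exfalso
      obtain ⟨-, -, ρ0, hρ0, h5, -⟩ := h
      obtain ⟨ρ', hρ', h6⟩ := hdis τ τ0 (P.pt.x / P.pt.w) ρ0 hρ0
      rw [hd, h6, ← hd, (h'.2.2.1 ρ' hρ').1] at h5
      exact lt_irrefl _ h5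
    · exact h'.2.2

lemma norm_prod_erase (f : ℤ[X]) (hgd : GoodAt f l) {ρ : Om l} (hρ : ρ ∈ Rt f l) (s : Finset (Om l))
    (hs : ∀ ρ' ∈ s, ρ' ∈ Rt f l ∧ ρ' ≠ ρ) : ‖∏ ρ' ∈ s, (ρ - ρ')‖ = 1 := by
  rw [norm_prod]
  exact prod_eq_one fun ρ' hρ' => hgd.diff ρ hρ ρ' (hs ρ' hρ').1 (hs ρ' hρ').2.symm

lemma norm_Wf (f : ℤ[X]) (hgd : GoodAt f l) (D : ℤ) (M : Om l → ℤ) {ρ : Om l} (hρ : ρ ∈ Rt f l) :
    ‖Wf f l D M ρ‖ = ‖(D : Om l)‖ ^ M ρ := by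
  classical
  unfold Wf
  rw [norm_mul, norm_prod, norm_zpow, norm_div, norm_mul, norm_one_of_not_dvd hgd.lead, one_mul,
    norm_prod_erase f hgd hρ _ (fun ρ' hρ' => ⟨(mem_erase.mp hρ').2, (mem_erase.mp hρ').1⟩), div_one]
  rw [prod_eq_one, one_mul]
  intro ρ' hρ'
  rw [norm_zpow, hgd.diff ρ' (mem_erase.mp hρ').2 ρ hρ (mem_erase.mp hρ').1, one_zpow]

theorem l0 (h1 : S_EMB) (h2 : S_LAN) (h3 : S_TRN) (h4 : S_INTP) : S_L0 := by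
  intro f hf q m D l _ hq hqn hgd hD P A hA
  have hD0 : D ≠ 0 := fun h => hD (by rw [h]; exact dvd_zero _)
  obtain ⟨z, hz, hc⟩ := three h1 h2 h3 h4 f hf q m D hq hqn hgd hD0 P A hA
  rcases hc with ⟨hx, h5, -⟩ | ⟨hw, -, h6, h5, -⟩ | ⟨M, c, κ, -, -, h5⟩
  · refine ⟨Units.mk0 _ (Algebra.norm_ne_zero_iff.mpr hx), 1, fun ρ hρ => ?_⟩
    have h7 := norm_eq_of_lt (h5 ρ hρ)
    rw [norm_ext] at h7
    rw [Units.val_mk0, ← h7]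
    unfold evl
    rw [Units.val_one, ev_one _ (isZ_of_mem hρ), norm_one, one_pow, mul_one]
  · refine ⟨Units.mk0 _ (Algebra.norm_ne_zero_iff.mpr hw), 1, fun ρ hρ => ?_⟩
    rw [Units.val_mk0, h5 ρ hρ, norm_mul, norm_ext, norm_prod, prod_eq_one (fun τ _ => h6 τ ρ hρ)]
    unfold evl
    rw [Units.val_one, ev_one _ (isZ_of_mem hρ), norm_one, one_pow]
  · refine ⟨c, κ, fun ρ hρ => ?_⟩
    have h7 := norm_eq_of_lt (h5 ρ hρ)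
    rw [norm_mul, norm_mul, norm_ext, norm_pow, norm_Wf f hgd D M hρ, norm_one_of_not_dvd hD, one_zpow,
      mul_one] at h7
    exact h7.symm

lemma Wf_zero (f : ℤ[X]) (D : ℤ) (ρ : Om l) : Wf f l D (fun _ => 0) ρ = 1 := by
  unfold Wf
  simp

theorem l1 (h1 : S_EMB) (h2 : S_LAN) (h3 : S_TRN) (h4 : S_INTP) (h5 : S_TEI) (h6 : S_QDV) : S_L1 := by
  classical
  intro f hf q m D l _ hq hqn hgd hlD hlD2 P A hA
  have hD0 : D ≠ 0 := fun h => hlD2 (by rw [h]; exact dvd_zero _)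
  obtain ⟨z, hz, hc⟩ := three h1 h2 h3 h4 f hf q m D hq.pos hqn hgd hD0 P A hA
  have hnD := norm_of_exact hlD hlD2
  obtain ⟨t1, t2, t3, t4⟩ := h3 l P.K
  have hq1 : ¬ (q : ℤ) ∣ (-1 : ℤ) := by
    rw [Int.dvd_neg]
    intro h
    have := Int.natCast_dvd_natCast.mp (by exact_mod_cast h : ((q : ℕ) : ℤ) ∣ ((1 : ℕ) : ℤ))
    exact hq.one_lt.ne' (Nat.dvd_one.mp this)
  have hpow : ∀ (τ : P.K →ₐ[ℚ_[l]] Om l) (x : P.K), x ≠ 0 →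
      ‖(D : Om l)‖ * ‖τ z‖ ^ q = ‖τ x‖ ^ f.natDegree →
      ‖τ (x ^ (f.natDegree / q) / z)‖ ^ q = (l : ℝ) ^ (-1 : ℤ) := by
    intro τ x hx h
    have hz' : ‖τ z‖ ^ q ≠ 0 := pow_ne_zero _ (norm_ne_zero_iff.mpr ((map_ne_zero τ).mpr hz))
    rw [map_div₀, map_pow, norm_div, norm_pow, div_pow, ← pow_mul, Nat.div_mul_cancel hqn, ← h, hnD,
      mul_div_assoc, div_self hz', mul_one]
  rcases hc with ⟨hx, h7, h8⟩ | ⟨hw, h10, h8, h7, h9⟩ | ⟨M, c, κ, h7, h8, h9⟩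
  · have h9 := h6 l P.K (fun _ => 0) (fun g _ => (map_zero g).symm) (fun _ => by simp)
      (fun _ _ h => absurd rfl h) q (P.pt.x ^ (f.natDegree / q) / z) (-1) hq hq1
      (fun τ => hpow τ _ hx (h8 τ)) 0
    rw [filter_true_of_mem (fun _ _ => rfl), card_univ, t2] at h9
    refine ⟨fun _ => 0, Units.mk0 _ (Algebra.norm_ne_zero_iff.mpr hx), 1, fun _ _ => rfl, ?_, ?_⟩
    · rw [sum_const_zero, zero_sub, Int.dvd_neg]
      exact_mod_cast h9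
    · intro ρ hρ
      have h10 : evl f l ρ ((1 : (Alg f ℚ_[l])ˣ) : Alg f ℚ_[l]) = 1 := by
        unfold evl
        rw [Units.val_one, ev_one _ (isZ_of_mem hρ)]
      rw [Units.val_mk0, Wf_zero, h10, one_pow, mul_one, mul_one]
      exact h7 ρ hρ
  · obtain ⟨tei, ht⟩ := h5 l
    set ξ := P.pt.x / P.pt.w with hξ
    set Φ : (P.K →ₐ[ℚ_[l]] Om l) → Om l := fun τ => tei (τ ξ) with hΦ
    have hΦ1 : ∀ τ, ‖Φ τ - τ ξ‖ < 1 := fun τ => (ht _ (h10 τ)).1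
    have hΦg : ∀ (g : Om l ≃ₐ[ℚ_[l]] Om l) (τ : P.K →ₐ[ℚ_[l]] Om l),
        Φ ((g : Om l →ₐ[ℚ_[l]] Om l).comp τ) = g (Φ τ) := fun g τ => (ht _ (h10 τ)).2.1 g
    have hΦn : ∀ τ, ‖Φ τ‖ ≤ 1 := by
      intro τ
      have h11 : Φ τ = (Φ τ - τ ξ) + τ ξ := by ring
      rw [h11]
      exact (PadicAlgCl.isNonarchimedean l _ _).trans (max_le (hΦ1 τ).le (h10 τ))
    have hΦd : ∀ τ τ', Φ τ ≠ Φ τ' → ‖Φ τ - Φ τ'‖ = 1 := fun τ τ' h =>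
      ((ht _ (h10 τ)).2.2 _ (h10 τ')).2 h
    have hdv := h6 l P.K Φ hΦg hΦn hΦd q (P.pt.w ^ (f.natDegree / q) / z) (-1) hq hq1
      (fun τ => hpow τ _ hw (h9 τ))
    set s : Om l → ℕ := fun T => (univ.filter (fun τ : P.K →ₐ[ℚ_[l]] Om l => Φ τ = T)).card with hs
    have hdeg : (q : ℕ) ∣ P.deg := by
      unfold LPt.deg
      rw [← t2, ← card_univ, card_eq_sum_card_image Φ]
      exact dvd_sum fun T _ => hdv T
    have happ : ∀ τ, ∀ ρ ∈ Rt f l, ‖(τ ξ - ρ) - (Φ τ - ρ)‖ < ‖τ ξ - ρ‖ := by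
      intro τ ρ hρ
      rw [h8 τ ρ hρ, sub_sub_sub_cancel_right, norm_sub_rev]
      exact hΦ1 τ
    have hΦρ : ∀ τ, ∀ ρ ∈ Rt f l, Φ τ - ρ ≠ 0 := by
      intro τ ρ hρ h
      have h12 := norm_eq_of_lt (happ τ ρ hρ)
      rw [h, norm_zero, h8 τ ρ hρ] at h12
      exact zero_ne_one h12
    set u : Om l → Om l := fun ρ => ∏ T ∈ univ.image Φ, (T - ρ) ^ (s T / q) with hu
    have hu0 : ∀ ρ ∈ Rt f l, u ρ ≠ 0 := by
      intro ρ hρ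
      refine prod_ne_zero_iff.mpr fun T hT => pow_ne_zero _ ?_
      obtain ⟨τ, -, rfl⟩ := mem_image.mp hT
      exact hΦρ τ ρ hρ
    have huq : ∀ ρ, u ρ ^ q = ∏ τ : P.K →ₐ[ℚ_[l]] Om l, (Φ τ - ρ) := by
      intro ρ
      rw [hu]
      simp only
      rw [← prod_pow, ← prod_fiberwise_of_maps_to (g := Φ) (t := univ.image Φ)
        (fun τ _ => mem_image_of_mem _ (mem_univ τ))]
      refine prod_congr rfl fun T _ => ?_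
      rw [← pow_mul, Nat.div_mul_cancel (hdv T), ← prod_const]
      exact prod_congr rfl fun τ hτ => by rw [(mem_filter.mp hτ).2]
    have hsg : ∀ (g : Om l ≃ₐ[ℚ_[l]] Om l) (T : Om l), s (g T) = s T := by
      intro g T
      simp only [hs]
      refine (Finset.card_equiv (cmpE g) ?_).symm
      intro τ
      simp only [mem_filter, mem_univ, true_and]
      have h11 : Φ (cmpE g τ) = g (Φ τ) := hΦg g τ
      rw [h11]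
      exact ⟨fun h => by rw [h], fun h => g.injective h⟩
    have hug : ∀ (g : Om l ≃ₐ[ℚ_[l]] Om l), ∀ ρ ∈ Rt f l, u (g ρ) = g (u ρ) := by
      intro g ρ _
      simp only [hu]
      rw [map_prod]
      refine (Finset.prod_equiv g.toEquiv ?_ ?_).symm
      · intro T
        simp only [mem_image, mem_univ, true_and, AlgEquiv.toEquiv_eq_coe, EquivLike.coe_coe]
        constructor
        · rintro ⟨τ, rfl⟩
          exact ⟨cmpE g τ, hΦg g τ⟩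
        · rintro ⟨τ, h⟩
          refine ⟨cmpE g.symm τ, ?_⟩
          have h11 : Φ (cmpE g.symm τ) = g.symm (Φ τ) := hΦg g.symm τ
          rw [h11, h, AlgEquiv.symm_apply_apply]
      · intro T _
        simp only [AlgEquiv.toEquiv_eq_coe, EquivLike.coe_coe]
        rw [hsg, map_pow, map_sub]
    obtain ⟨κ, hκ, -⟩ := (h4 f l hgd).1 u hug hu0
    refine ⟨fun _ => 0, Units.mk0 _ (Algebra.norm_ne_zero_iff.mpr hw), κ, fun _ _ => rfl, ?_, ?_⟩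
    · rw [sum_const_zero, zero_sub, Int.dvd_neg]
      exact_mod_cast hdeg
    · intro ρ hρ
      rw [Units.val_mk0, Wf_zero, hκ ρ hρ, huq, mul_one, h7 ρ hρ]
      refine ap_mul (ap_refl ?_) (ap_prod _ fun τ _ => happ τ ρ hρ)
      exact (_root_.map_ne_zero _).mpr (Algebra.norm_ne_zero_iff.mpr hw)
  · refine ⟨M, c, κ, h7, ?_, h9⟩
    rw [h8]
    unfold LPt.deg
    simp

end Pool.Agent.Q241.ZC
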