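import Pool.Agent.Q241.ZC.Pl
import Pool.Agent.Q241.ZC.L01

/-! # Project ZC of helper51: jobs TRAU, TRAP and TRAR, transfer to the number field -/

set_option autoImplicit false

namespace Pool.Agent.Q241.ZC

open Polynomial NumberField IsDedekindDomain Finset
open Pool.Agent.Q51.ZC
open Pool.Agent.Q51.EL (Abv Setup)
open Pool.Agent.Q51.SE (Parq Alg cl Point IsValue IsUnitAt)
open Pool.Agent.Q239.EL (ab_finite)

/-! ### Values of units -/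

section

variable {l : ℕ} [hl : Fact l.Prime] {f : ℤ[X]}

lemma evl_poly {d : ℚ[X]} {A : (Alg f ℚ_[l])ˣ}
    (hA : (A : Alg f ℚ_[l]) = cl f ℚ_[l] (d.map (Rat.castHom ℚ_[l]))) {ρ : Om l} (hρ : ρ ∈ Rt f l) :
    evl f l ρ A = aeval ρ d := by
  unfold evl
  rw [hA, ev_cl _ (isZ_of_mem hρ), eval₂_map, aeval_def]
  congr 1

lemma evl_ne {A : (Alg f ℚ_[l])ˣ} {ρ : Om l} (hρ : ρ ∈ Rt f l) : evl f l ρ A ≠ 0 :=
  ev_ne _ (isZ_of_mem hρ) A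

lemma fix_norm (hU : S_UNR) (hgd : GoodAt f l) {ρ : Om l} (hρ : ρ ∈ Rt f l) {y : Om l} (hy : y ≠ 0)
    (hfix : ∀ g : Om l ≃ₐ[ℚ_[l]] Om l, g ρ = ρ → g y = y) : ∃ k : ℤ, ‖y‖ = (l : ℝ) ^ k :=
  hU l ρ (hgd.int ρ hρ) (fun g h => hgd.diff _ (aut_mem g hρ) _ hρ h) y hy hfix

lemma evl_norm (hU : S_UNR) (hgd : GoodAt f l) (A : (Alg f ℚ_[l])ˣ) {ρ : Om l} (hρ : ρ ∈ Rt f l) :
    ∃ k : ℤ, ‖evl f l ρ A‖ = (l : ℝ) ^ k := by
  refine fix_norm hU hgd hρ (evl_ne hρ) fun g hg => ?_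
  rw [← evl_aut g hρ, hg]

lemma unit_norm (c : (ℚ_[l])ˣ) : ∃ j : ℤ, ‖(c : ℚ_[l])‖ = (l : ℝ) ^ j := by
  obtain ⟨n, hn⟩ := Padic.padicNormE.image c.ne_zero
  exact ⟨-n, by rw [hn]; push_cast; rfl⟩

lemma mem_ab {L : Type} [Field L] [NumberField L] (v : HeightOneSpectrum (𝓞 L)) :
    v ∈ ab L l ↔ Abv v l := by
  classical
  have hfin : {v : HeightOneSpectrum (𝓞 L) | Abv v l}.Finite := ab_finite hl.out.ne_zero
  unfold ab
  rw [dif_pos hfin, Set.Finite.mem_toFinset]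
  rfl

end

theorem trau (h1 : S_PL) (h2 : S_UNR) : S_TRAU := by
  classical
  intro f L _ _ θ hs q l _ hgd hsq d A hA hloc
  obtain ⟨π, hπ, hfib⟩ := h1 f L θ hs l hgd hsq
  obtain ⟨c, κ, hc⟩ := hloc
  obtain ⟨j, hj⟩ := unit_norm c
  refine ⟨-j, fun v hv => ?_⟩
  obtain ⟨hd1, hd2⟩ := hfib v hv
  rw [← hd2, Nat.one_le_iff_ne_zero, Finset.card_ne_zero] at hd1
  obtain ⟨ρ, hρ⟩ := hd1
  obtain ⟨hρ1, rfl⟩ := mem_filter.mp hρ
  obtain ⟨k, hk⟩ := evl_norm h2 hgd κ hρ1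
  refine ⟨-k, ?_⟩
  rw [(hπ ρ hρ1).2.2, ← evl_poly hA hρ1, hc ρ hρ1, hj, hk, ← zpow_natCast, ← zpow_mul,
    ← zpow_add₀ (by have := l_gt_one (l := l); positivity)]
  congr 1
  ring

lemma locp_norm {l : ℕ} [hl : Fact l.Prime] {f : ℤ[X]} (h2 : S_UNR) (hgd : GoodAt f l) {D : ℤ}
    (hD : (l : ℤ) ∣ D) (hD2 : ¬ (l : ℤ) ^ 2 ∣ D) {q : ℕ} {M : Om l → ℤ} {A κ : (Alg f ℚ_[l])ˣ} {c : (ℚ_[l])ˣ}
    {j : ℤ} (hj : ‖(c : ℚ_[l])‖ = (l : ℝ) ^ j) {ρ : Om l} (hρ : ρ ∈ Rt f l)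
    (h : ‖evl f l ρ A -
      algebraMap ℚ_[l] (Om l) (c : ℚ_[l]) * evl f l ρ κ ^ q * Wf f l D M ρ‖ < ‖evl f l ρ A‖) :
    ∃ k : ℤ, ‖evl f l ρ A‖ = (l : ℝ) ^ (j + q * k - M ρ) := by
  obtain ⟨k, hk⟩ := evl_norm h2 hgd κ hρ
  refine ⟨k, ?_⟩
  have hl0 : (l : ℝ) ≠ 0 := by have := l_gt_one (l := l); positivity
  rw [← norm_eq_of_lt h, norm_mul, norm_mul, norm_ext, norm_pow, norm_Wf f hgd D M hρ,
    norm_of_exact hD hD2, hj, hk, ← zpow_natCast, ← zpow_mul, ← zpow_mul, ← zpow_add₀ hl0,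
    ← zpow_add₀ hl0]
  congr 1
  ring

theorem trap (h1 : S_PL) (h2 : S_UNR) : S_TRAP := by
  classical
  intro f L _ _ θ hs q l hl hq hqn hgd hsq D hD hD2 d A t hA ht hloc
  obtain ⟨π, hπ, hfib⟩ := h1 f L θ hs l hgd hsq
  obtain ⟨M, c, κ, hM, hdeg, hc⟩ := hloc
  obtain ⟨j, hj⟩ := unit_norm c
  have hval : ∀ ρ ∈ Rt f l, ∃ k : ℤ,
      (π ρ).valuation L (aeval θ d) = WithZero.exp (j + q * k - M ρ) := by
    intro ρ hρ
    obtain ⟨k, hk⟩ := locp_norm h2 hgd hD hD2 hj hρ (hc ρ hρ)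
    refine ⟨k, ?_⟩
    rw [(hπ ρ hρ).2.2, ← evl_poly hA hρ, hk]
  choose! k hk using hval
  set M' : HeightOneSpectrum (𝓞 L) → ℤ := fun v => -WithZero.log (v.valuation L (aeval θ d)) with hM'
  have hMρ : ∀ ρ ∈ Rt f l, M' (π ρ) = M ρ - j - q * k ρ := by
    intro ρ hρ
    simp only [hM']
    rw [hk ρ hρ, WithZero.log_exp]
    ring
  refine ⟨M', fun v hv => ?_, ?_⟩
  · obtain ⟨hd1, hd2⟩ := hfib v hv
    rw [← hd2, Nat.one_le_iff_ne_zero, Finset.card_ne_zero] at hd1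
    obtain ⟨ρ, hρ⟩ := hd1
    obtain ⟨hρ1, rfl⟩ := mem_filter.mp hρ
    refine ⟨0, ?_⟩
    rw [hMρ ρ hρ1, hk ρ hρ1]
    congr 1
    ring
  · unfold Deg1
    have hsum : ∑ v ∈ ab L l, (dg l v : ℤ) * M' v = ∑ ρ ∈ Rt f l, M' (π ρ) := by
      rw [← sum_fiberwise_of_maps_to (g := π) (t := ab L l)
        (fun ρ hρ => (mem_ab (π ρ)).mpr (hπ ρ hρ).1)]
      refine sum_congr rfl fun v hv => ?_
      have h3 : ∀ ρ ∈ (Rt f l).filter (fun ρ => π ρ = v), M' (π ρ) = M' v := by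
        intro ρ hρ
        rw [(mem_filter.mp hρ).2]
      rw [sum_congr rfl h3, sum_const, (hfib v ((mem_ab v).mp hv)).2, nsmul_eq_mul]
    rw [hsum, sum_congr rfl hMρ, sum_sub_distrib, sum_sub_distrib, sum_const, hgd.card, ← mul_sum,
      nsmul_eq_mul]
    obtain ⟨a, ha⟩ := hdeg
    obtain ⟨b, hb⟩ := ht
    obtain ⟨n', hn'⟩ := hqn
    refine ⟨a + b - n' * j - ∑ ρ ∈ Rt f l, k ρ, ?_⟩
    rw [hn']
    push_cast
    linear_combination ha + hb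

/-! ### The functions `Wf` -/

section W

variable {l : ℕ} [hl : Fact l.Prime] {f : ℤ[X]} {D : ℤ}

lemma lead_ne_zero (hgd : GoodAt f l) : (f.leadingCoeff : Om l) ≠ 0 := by
  have h5 : f.leadingCoeff ≠ 0 := fun h => hgd.lead (by rw [h]; exact dvd_zero _)
  exact_mod_cast h5

open Classical in
lemma base_ne {ρ : Om l} (s : Finset (Om l)) (hs : ρ ∉ s) : ∏ ρ' ∈ s, (ρ - ρ') ≠ 0 := by
  refine prod_ne_zero_iff.mpr fun ρ' hρ' h => ?_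
  rw [sub_eq_zero] at h
  rw [h] at hs
  exact hs hρ'

open Classical in
lemma E_ne (hgd : GoodAt f l) (hD : D ≠ 0) (ρ : Om l) :
    (D : Om l) / ((f.leadingCoeff : Om l) * ∏ ρ' ∈ (Rt f l).erase ρ, (ρ - ρ')) ≠ 0 :=
  div_ne_zero (by exact_mod_cast hD) (mul_ne_zero (lead_ne_zero hgd)
    (base_ne _ (notMem_erase ρ _)))

lemma Wf_add (hgd : GoodAt f l) (hD : D ≠ 0) {ρ : Om l} (hρ : ρ ∈ Rt f l) {M N P : Om l → ℤ}
    (h : ∀ ρ ∈ Rt f l, P ρ = M ρ + N ρ) : Wf f l D P ρ = Wf f l D M ρ * Wf f l D N ρ := by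
  classical
  unfold Wf
  rw [h ρ hρ, zpow_add₀ (E_ne hgd hD ρ)]
  have h1 : ∏ ρ' ∈ (Rt f l).erase ρ, (ρ' - ρ) ^ P ρ' =
      (∏ ρ' ∈ (Rt f l).erase ρ, (ρ' - ρ) ^ M ρ') * ∏ ρ' ∈ (Rt f l).erase ρ, (ρ' - ρ) ^ N ρ' := by
    rw [← prod_mul_distrib]
    refine prod_congr rfl fun ρ' hρ' => ?_
    rw [h ρ' (mem_erase.mp hρ').2, zpow_add₀ (sub_ne_zero.mpr (mem_erase.mp hρ').1)]
  rw [h1]
  ring

lemma Wf_pow {ρ : Om l} (hρ : ρ ∈ Rt f l) {q : ℕ} {N P : Om l → ℤ}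
    (h : ∀ ρ ∈ Rt f l, P ρ = q * N ρ) : Wf f l D P ρ = Wf f l D N ρ ^ q := by
  classical
  unfold Wf
  rw [h ρ hρ, mul_pow, ← prod_pow, mul_comm (q : ℤ), zpow_mul, zpow_natCast]
  congr 1
  refine prod_congr rfl fun ρ' hρ' => ?_
  rw [h ρ' (mem_erase.mp hρ').2, mul_comm (q : ℤ), zpow_mul, zpow_natCast]

/-- the constant -/
noncomputable def Cn (f : ℤ[X]) (D : ℤ) : ℚ := (-1) ^ (f.natDegree - 1) * (D : ℚ) / f.leadingCoeff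

lemma Cn_ne (hgd : GoodAt f l) (hD : D ≠ 0) : Cn f D ≠ 0 := by
  have h5 : f.leadingCoeff ≠ 0 := fun h => hgd.lead (by rw [h]; exact dvd_zero _)
  unfold Cn
  have h6 : (f.leadingCoeff : ℚ) ≠ 0 := by exact_mod_cast h5
  have h7 : (D : ℚ) ≠ 0 := by exact_mod_cast hD
  exact div_ne_zero (mul_ne_zero (pow_ne_zero _ (by norm_num)) h7) h6

lemma Wf_const (hgd : GoodAt f l) {ρ : Om l} (hρ : ρ ∈ Rt f l) (e : ℤ) :
    Wf f l D (fun _ => e) ρ = ((Cn f D : ℚ) : Om l) ^ e := by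
  classical
  unfold Wf Cn
  have h1 : ∏ ρ' ∈ (Rt f l).erase ρ, (ρ' - ρ) =
      (-1) ^ (f.natDegree - 1) * ∏ ρ' ∈ (Rt f l).erase ρ, (ρ - ρ') := by
    rw [← hgd.card, ← card_erase_of_mem hρ, ← prod_const, ← prod_mul_distrib]
    exact prod_congr rfl fun ρ' _ => by ring
  rw [prod_zpow, ← mul_zpow, h1]
  congr 1
  have h2 := base_ne ((Rt f l).erase ρ) (notMem_erase ρ _)
  have h3 := lead_ne_zero hgd
  push_cast
  field_simp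

lemma Wf_change (hgd : GoodAt f l) (hD : D ≠ 0) (D' : ℤ) {ρ : Om l} (M : Om l → ℤ) :
    Wf f l D' M ρ = (((D' : ℚ) / (D : ℚ) : ℚ) : Om l) ^ M ρ * Wf f l D M ρ := by
  classical
  unfold Wf
  have h2 := base_ne ((Rt f l).erase ρ) (notMem_erase ρ _)
  have h3 := lead_ne_zero hgd
  have h4 : (D : Om l) ≠ 0 := by exact_mod_cast hD
  have h1 : (D' : Om l) / ((f.leadingCoeff : Om l) * ∏ ρ' ∈ (Rt f l).erase ρ, (ρ - ρ')) =
      (((D' : ℚ) / (D : ℚ) : ℚ) : Om l) *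
        ((D : Om l) / ((f.leadingCoeff : Om l) * ∏ ρ' ∈ (Rt f l).erase ρ, (ρ - ρ'))) := by
    push_cast
    field_simp
  rw [h1, mul_zpow]
  ring

lemma Wf_aut (g : Om l ≃ₐ[ℚ_[l]] Om l) {ρ : Om l} (hρ : ρ ∈ Rt f l) {M : Om l → ℤ}
    (hM : ∀ ρ ∈ Rt f l, M (g ρ) = M ρ) : Wf f l D M (g ρ) = g (Wf f l D M ρ) := by
  classical
  unfold Wf
  have hmem : ∀ ρ' : Om l, ρ' ∈ (Rt f l).erase ρ ↔ g.toEquiv ρ' ∈ (Rt f l).erase (g ρ) := by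
    intro ρ'
    rw [mem_erase, mem_erase]
    have e : g.toEquiv ρ' = g ρ' := rfl
    rw [e]
    constructor
    · rintro ⟨h1, h2⟩
      exact ⟨fun h => h1 (g.injective h), aut_mem g h2⟩
    · rintro ⟨h1, h2⟩
      refine ⟨fun h => h1 (by rw [h]), ?_⟩
      have h3 := aut_mem g.symm h2
      rwa [AlgEquiv.symm_apply_apply] at h3
  rw [map_mul, map_prod, map_zpow₀, map_div₀, map_mul, map_prod, hM ρ hρ, map_intCast, map_intCast]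
  congr 1
  · refine (prod_equiv g.toEquiv hmem ?_).symm
    intro ρ' hρ'
    have e : g.toEquiv ρ' = g ρ' := rfl
    rw [e, hM ρ' (mem_erase.mp hρ').2, map_zpow₀, map_sub]
  · congr 3
    refine (prod_equiv g.toEquiv hmem ?_).symm
    intro ρ' hρ'
    have e : g.toEquiv ρ' = g ρ' := rfl
    rw [e, map_sub]

lemma Wf_ne (hgd : GoodAt f l) (hD : D ≠ 0) (M : Om l → ℤ) {ρ : Om l} (hρ : ρ ∈ Rt f l) :
    Wf f l D M ρ ≠ 0 := by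
  have h1 : (D : Om l) ≠ 0 := by exact_mod_cast hD
  rw [← norm_ne_zero_iff, norm_Wf f hgd D M hρ]
  exact zpow_ne_zero _ (norm_ne_zero_iff.mpr h1)

end W

/-- one of the two values, in terms of the vector `M` -/
lemma dec {l : ℕ} [hl : Fact l.Prime] {f : ℤ[X]} (h2 : S_UNR) (hgd : GoodAt f l) {L : Type} [Field L]
    [NumberField L] {θ : L} {π : Om l → HeightOneSpectrum (𝓞 L)}
    (hπ : ∀ ρ ∈ Rt f l, Abv (π ρ) l ∧ (∀ g : Om l ≃ₐ[ℚ_[l]] Om l, π (g ρ) = π ρ) ∧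
      ∀ (h : ℚ[X]) (k : ℤ), (π ρ).valuation L (aeval θ h) = WithZero.exp k ↔
        ‖aeval ρ h‖ = (l : ℝ) ^ k) {q : ℕ} (hq : q.Prime) {D : ℤ} (hD : (l : ℤ) ∣ D)
    (hD2 : ¬ (l : ℤ) ^ 2 ∣ D) {d : ℚ[X]} {A : (Alg f ℚ_[l])ˣ} {t : ℤ}
    (hA : (A : Alg f ℚ_[l]) = cl f ℚ_[l] (d.map (Rat.castHom ℚ_[l]))) (hloc : LocP f q l D A t)
    {M : HeightOneSpectrum (𝓞 L) → ℤ} (hM : ∃ e : ℤ, VecP q l (aeval θ d) (fun v => M v + e)) :
    ∃ (N : Om l → ℤ) (s : ℚ_[l]) (κ : (Alg f ℚ_[l])ˣ), s ≠ 0 ∧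
      (∀ (g : Om l ≃ₐ[ℚ_[l]] Om l), ∀ ρ ∈ Rt f l, N (g ρ) = N ρ) ∧
      ∀ ρ ∈ Rt f l, ‖evl f l ρ A - algebraMap ℚ_[l] (Om l) s * (evl f l ρ κ * Wf f l D N ρ) ^ q *
        Wf f l D (fun ρ => M (π ρ)) ρ‖ < ‖evl f l ρ A‖ := by
  classical
  have hD0 : D ≠ 0 := fun h => hD2 (by rw [h]; exact dvd_zero _)
  obtain ⟨M1, c, κ, hM1, -, hc⟩ := hloc
  obtain ⟨j, hj⟩ := unit_norm c
  obtain ⟨e, he⟩ := hM
  have key : ∀ ρ ∈ Rt f l, ∃ N : ℤ, M1 ρ = M (π ρ) + (e + j) + q * N := by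
    intro ρ hρ
    obtain ⟨k, hk⟩ := locp_norm h2 hgd hD hD2 hj hρ (hc ρ hρ)
    obtain ⟨k', hk'⟩ := he (π ρ) (hπ ρ hρ).1
    rw [(hπ ρ hρ).2.2, ← evl_poly hA hρ, hk] at hk'
    have hl1 := l_gt_one (l := l)
    have h3 := zpow_right_injective₀ (by linarith) hl1.ne' hk'
    simp only at h3
    exact ⟨k + k', by linarith⟩
  choose! N hN using key
  have hNg : ∀ (g : Om l ≃ₐ[ℚ_[l]] Om l), ∀ ρ ∈ Rt f l, N (g ρ) = N ρ := by
    intro g ρ hρ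
    have h3 := hN (g ρ) (aut_mem g hρ)
    rw [hM1 g ρ, (hπ ρ hρ).2.1 g, hN ρ hρ] at h3
    have h4 : (q : ℤ) * N ρ = q * N (g ρ) := by linarith
    have hq0 : (q : ℤ) ≠ 0 := by exact_mod_cast hq.ne_zero
    exact (mul_left_cancel₀ hq0 h4).symm
  refine ⟨N, (c : ℚ_[l]) * ((Cn f D : ℚ) : ℚ_[l]) ^ (e + j), κ, ?_, hNg, ?_⟩
  · refine mul_ne_zero c.ne_zero (zpow_ne_zero _ ?_)
    exact_mod_cast Cn_ne hgd hD0
  · intro ρ hρ
    have h3 : Wf f l D M1 ρ = Wf f l D (fun ρ => M (π ρ)) ρ * ((Cn f D : ℚ) : Om l) ^ (e + j) *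
        Wf f l D N ρ ^ q := by
      rw [Wf_add hgd hD0 hρ (M := fun ρ => M (π ρ) + (e + j)) (N := fun ρ => (q : ℤ) * N ρ) hN,
        Wf_add hgd hD0 hρ (M := fun ρ => M (π ρ)) (N := fun _ => e + j) (fun _ _ => rfl),
        Wf_const hgd hρ, Wf_pow hρ (N := N) (fun _ _ => rfl)]
    have h4 : algebraMap ℚ_[l] (Om l) ((c : ℚ_[l]) * ((Cn f D : ℚ) : ℚ_[l]) ^ (e + j)) *
        (evl f l ρ κ * Wf f l D N ρ) ^ q * Wf f l D (fun ρ => M (π ρ)) ρ =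
        algebraMap ℚ_[l] (Om l) (c : ℚ_[l]) * evl f l ρ κ ^ q * Wf f l D M1 ρ := by
      rw [h3, map_mul, map_zpow₀, map_ratCast, mul_pow]
      ring
    rw [h4]
    exact hc ρ hρ

theorem trar (h1 : S_PL) (h2 : S_UNR) (h3 : S_APX) : S_TRAR := by
  classical
  intro f L _ _ θ hs q l hl hq hqn hgd hsq D D' hD hD2 hD' hD2' d d' A A' t t' hA hA' hloc hloc' M hM hM'
  obtain ⟨π, hπ, hfib⟩ := h1 f L θ hs l hgd hsq
  have hD0 : D ≠ 0 := fun h => hD2 (by rw [h]; exact dvd_zero _)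
  have hD0' : D' ≠ 0 := fun h => hD2' (by rw [h]; exact dvd_zero _)
  have hl1 := l_gt_one (l := l)
  obtain ⟨N, s, κ, hs0, hN, hE⟩ := dec h2 hgd hπ hq hD hD2 hA hloc hM
  obtain ⟨N', s', κ', hs0', hN', hE'⟩ := dec h2 hgd hπ hq hD' hD2' hA' hloc' hM'
  obtain ⟨s1, hs1⟩ := Padic.rat_dense l (s' / s) (norm_pos_iff.mpr (div_ne_zero hs0' hs0))
  set s2 : ℚ := (D' : ℚ) / (D : ℚ) with hs2
  have hap1 : ‖algebraMap ℚ_[l] (Om l) (s' / s) - ((s1 : ℚ) : Om l)‖ <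
      ‖algebraMap ℚ_[l] (Om l) (s' / s)‖ := by
    have h4 : ((s1 : ℚ) : Om l) = algebraMap ℚ_[l] (Om l) ((s1 : ℚ) : ℚ_[l]) := (map_ratCast _ _).symm
    rw [h4, ← map_sub, norm_ext, norm_ext]
    exact hs1
  have hs10 : s1 ≠ 0 := by
    intro h
    rw [h, Rat.cast_zero, sub_zero] at hs1
    exact lt_irrefl _ hs1
  have hs20 : s2 ≠ 0 := div_ne_zero (by exact_mod_cast hD0') (by exact_mod_cast hD0)
  refine ⟨s1, s2, hs10, hs20, ?_, ?_⟩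
  · rw [hs2, padicValRat.div (by exact_mod_cast hD0') (by exact_mod_cast hD0)]
    have h4 : ∀ E : ℤ, (l : ℤ) ∣ E → ¬ (l : ℤ) ^ 2 ∣ E → padicValRat l (E : ℚ) = 1 := by
      intro E h5 h6
      obtain ⟨E', rfl⟩ := h5
      have h7 : ¬ (l : ℤ) ∣ E' := by
        intro h8
        exact h6 (by rw [pow_two]; exact mul_dvd_mul_left _ h8)
      have h8 : E' ≠ 0 := fun h => h7 (by rw [h]; exact dvd_zero _)
      rw [Int.cast_mul, padicValRat.mul (by exact_mod_cast hl.out.ne_zero) (by exact_mod_cast h8),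
        Int.cast_natCast, padicValRat.self hl.out.one_lt, padicValRat.of_int,
        padicValInt.eq_zero_of_not_dvd h7]
      rfl
    rw [h4 D hD hD2, h4 D' hD' hD2', sub_self]
  · intro v hv
    obtain ⟨hd1, hd2⟩ := hfib v hv
    rw [← hd2, Nat.one_le_iff_ne_zero, Finset.card_ne_zero] at hd1
    obtain ⟨ρ, hρ⟩ := hd1
    obtain ⟨hρ1, rfl⟩ := mem_filter.mp hρ
    set G : Om l := (evl f l ρ κ' * Wf f l D' N' ρ) / (evl f l ρ κ * Wf f l D N ρ) with hG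
    have hu0 : evl f l ρ κ * Wf f l D N ρ ≠ 0 := mul_ne_zero (evl_ne hρ1) (Wf_ne hgd hD0 N hρ1)
    have hu0' : evl f l ρ κ' * Wf f l D' N' ρ ≠ 0 := mul_ne_zero (evl_ne hρ1) (Wf_ne hgd hD0' N' hρ1)
    have hG0 : G ≠ 0 := div_ne_zero hu0' hu0
    have hGf : ∀ g : Om l ≃ₐ[ℚ_[l]] Om l, g ρ = ρ → g G = G := by
      intro g hg
      rw [hG, map_div₀, map_mul, map_mul, ← evl_aut g hρ1, ← evl_aut g hρ1,
        ← Wf_aut g hρ1 (hN g), ← Wf_aut g hρ1 (hN' g), hg]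
    obtain ⟨h, hh⟩ := h3 l ρ G hG0 hGf
    have hh' := hh
    rw [norm_sub_rev] at hh'
    obtain ⟨kG, hkG⟩ := fix_norm h2 hgd hρ1 hG0 hGf
    have hnh : ‖aeval ρ h‖ = (l : ℝ) ^ kG := by rw [norm_eq_of_lt hh', hkG]
    have hg0 : aeval θ h ≠ 0 := by
      intro h5
      have h6 := ((hπ ρ hρ1).2.2 h kG).mpr hnh
      rw [h5, map_zero] at h6
      exact WithZero.exp_ne_zero h6.symm
    refine ⟨aeval θ h, hg0, ?_⟩
    set P : ℚ[X] := d' - C (s1 * s2 ^ M (π ρ)) * h ^ q * d with hP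
    have hPθ : aeval θ P = aeval θ d' - (s1 : L) * (s2 : L) ^ M (π ρ) * aeval θ h ^ q * aeval θ d := by
      rw [hP, map_sub, map_mul, map_mul, map_pow, aeval_C, map_mul, map_zpow₀, eq_ratCast, eq_ratCast]
    rw [← hPθ]
    have hPρ : ‖aeval ρ P‖ < ‖aeval ρ d'‖ := by
      have h5 : aeval ρ P = aeval ρ d' -
          ((s1 : ℚ) : Om l) * ((s2 : ℚ) : Om l) ^ M (π ρ) * aeval ρ h ^ q * aeval ρ d := by
        rw [hP, map_sub, map_mul, map_mul, map_pow, aeval_C, map_mul, map_zpow₀, eq_ratCast, eq_ratCast]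
      rw [h5, ← evl_poly hA hρ1, ← evl_poly hA' hρ1]
      refine ap_trans (hE' ρ hρ1) ?_
      have hW : Wf f l D' (fun ρ => M (π ρ)) ρ = ((s2 : ℚ) : Om l) ^ M (π ρ) *
          Wf f l D (fun ρ => M (π ρ)) ρ := Wf_change hgd hD0 D' _
      have hs0o : algebraMap ℚ_[l] (Om l) s ≠ 0 := (_root_.map_ne_zero _).mpr hs0
      have h6 : algebraMap ℚ_[l] (Om l) s' * (evl f l ρ κ' * Wf f l D' N' ρ) ^ q *
          Wf f l D' (fun ρ => M (π ρ)) ρ =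
          algebraMap ℚ_[l] (Om l) (s' / s) * ((s2 : ℚ) : Om l) ^ M (π ρ) * G ^ q *
          (algebraMap ℚ_[l] (Om l) s * (evl f l ρ κ * Wf f l D N ρ) ^ q *
            Wf f l D (fun ρ => M (π ρ)) ρ) := by
        rw [hW, hG, map_div₀, div_pow]
        field_simp
      rw [h6]
      refine ap_mul (ap_mul (ap_mul hap1 (ap_refl ?_)) (ap_pow hh' q)) (ap_symm (hE ρ hρ1))
      exact zpow_ne_zero _ (by exact_mod_cast hs20)
    obtain ⟨k', hk'⟩ := evl_norm h2 hgd A' hρ1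
    rw [evl_poly hA' hρ1] at hk'
    rw [((hπ ρ hρ1).2.2 d' k').mpr hk']
    by_cases hz : aeval θ P = 0
    · rw [hz, map_zero]
      exact WithZero.exp_pos
    · have hv0 : (π ρ).valuation L (aeval θ P) ≠ 0 := (Valuation.ne_zero_iff _).mpr hz
      obtain ⟨k, hk⟩ : ∃ k : ℤ, (π ρ).valuation L (aeval θ P) = WithZero.exp k :=
        ⟨WithZero.log ((π ρ).valuation L (aeval θ P)), (WithZero.exp_log hv0).symm⟩
      have h5 := ((hπ ρ hρ1).2.2 P k).mp hk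
      rw [h5, hk'] at hPρ
      rw [hk, WithZero.exp_lt_exp]
      exact (zpow_lt_zpow_iff_right₀ hl1).mp hPρ

end Pool.Agent.Q241.ZC
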